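import Pool.Agent.Run7.h432.LV.Stm

/-!
Piece UNI of project LV (helper432).
-/

set_option autoImplicit false

namespace Run7.h650.LV

open Run7.h432.LV

universe u v

section

variable {k : Type u} {R : Type v} [CommRing k] [NonUnitalRing R] [Module k R]
  [IsScalarTower k R R] [SMulCommClass k R R] {ι : Type}

/-- the value of a word with letters in `R` -/
def ev1 (w : List (R ⊕ ι)) (y : ι → Unitization k R) : Unitization k R :=
  (w.map (Sum.elim (fun r : R => (r : Unitization k R)) y)).prod

theorem ev_mem (w : List (Unitization k R ⊕ ι)) :
    ev w ∈ Submodule.span k {F : (ι → Unitization k R) → Unitization k R |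
      ∃ w' : List (R ⊕ ι), w'.filterMap Sum.getRight? = w.filterMap Sum.getRight? ∧ F = ev1 w'} := by
  induction w with
  | nil =>
    apply Submodule.subset_span
    exact ⟨[], rfl, rfl⟩
  | cons a w ih =>
    rcases a with a | i
    · have h1 : ev (Sum.inl a :: w) = fun y : ι → Unitization k R => a * ev w y := by
        funext y
        unfold ev
        rw [List.map_cons, List.prod_cons]
        rfl
      rw [h1]
      refine Submodule.span_induction (p := fun F _ => (fun y => a * F y) ∈ Submodule.span k
        {F : (ι → Unitization k R) → Unitization k R | ∃ w' : List (R ⊕ ι),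
          w'.filterMap Sum.getRight? = (Sum.inl a :: w).filterMap Sum.getRight? ∧ F = ev1 w'})
        ?_ ?_ ?_ ?_ ih
      · rintro F ⟨w', hw', rfl⟩
        have h2 : (fun y : ι → Unitization k R => a * ev1 w' y) =
            a.fst • ev1 w' + ev1 (Sum.inl a.snd :: w') := by
          funext y
          rw [Pi.add_apply, Pi.smul_apply]
          have h3 : ev1 (Sum.inl a.snd :: w') y = (a.snd : Unitization k R) * ev1 w' y := by
            unfold ev1
            rw [List.map_cons, List.prod_cons]
            rfl
          rw [h3]
          nth_rewrite 1 [← Unitization.inl_fst_add_inr_snd_eq a]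
          rw [add_mul, Algebra.smul_def]
          rfl
        rw [h2]
        refine Submodule.add_mem _ (Submodule.smul_mem _ _ (Submodule.subset_span ?_))
          (Submodule.subset_span ?_)
        · exact ⟨w', hw', rfl⟩
        · exact ⟨Sum.inl a.snd :: w', hw', rfl⟩
      · have h2 : (fun y : ι → Unitization k R =>
            a * (0 : (ι → Unitization k R) → Unitization k R) y) = 0 := by
          funext y
          simp
        rw [h2]
        exact Submodule.zero_mem _
      · intro F G _ _ hF hG
        have h2 : (fun y : ι → Unitization k R => a * (F + G) y) =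
            (fun y => a * F y) + fun y => a * G y := by
          funext y
          rw [Pi.add_apply, mul_add, Pi.add_apply]
        rw [h2]
        exact Submodule.add_mem _ hF hG
      · intro c F _ hF
        have h2 : (fun y : ι → Unitization k R => a * (c • F) y) = c • fun y => a * F y := by
          funext y
          rw [Pi.smul_apply, mul_smul_comm, Pi.smul_apply]
        rw [h2]
        exact Submodule.smul_mem _ _ hF
    · have h1 : ev (Sum.inr i :: w) = fun y : ι → Unitization k R => y i * ev w y := by
        funext y
        unfold ev
        rw [List.map_cons, List.prod_cons]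
        rfl
      rw [h1]
      refine Submodule.span_induction (p := fun F _ => (fun y => y i * F y) ∈ Submodule.span k
        {F : (ι → Unitization k R) → Unitization k R | ∃ w' : List (R ⊕ ι),
          w'.filterMap Sum.getRight? = (Sum.inr i :: w).filterMap Sum.getRight? ∧ F = ev1 w'})
        ?_ ?_ ?_ ?_ ih
      · rintro F ⟨w', hw', rfl⟩
        apply Submodule.subset_span
        refine ⟨Sum.inr i :: w', ?_, ?_⟩
        · rw [List.filterMap_cons, List.filterMap_cons, hw']
          rfl
        · funext y
          unfold ev1
          rw [List.map_cons, List.prod_cons]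
          rfl
      · have h2 : (fun y : ι → Unitization k R =>
            y i * (0 : (ι → Unitization k R) → Unitization k R) y) = 0 := by
          funext y
          simp
        rw [h2]
        exact Submodule.zero_mem _
      · intro F G _ _ hF hG
        have h2 : (fun y : ι → Unitization k R => y i * (F + G) y) =
            (fun y => y i * F y) + fun y => y i * G y := by
          funext y
          rw [Pi.add_apply, mul_add, Pi.add_apply]
        rw [h2]
        exact Submodule.add_mem _ hF hG
      · intro c F _ hF
        have h2 : (fun y : ι → Unitization k R => y i * (c • F) y) = c • fun y => y i * F y := by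
          funext y
          rw [Pi.smul_apply, mul_smul_comm, Pi.smul_apply]
        rw [h2]
        exact Submodule.smul_mem _ _ hF

end

theorem mem_iff {X : Type v} {ι : Type} (w : List (X ⊕ ι)) (i : ι) :
    Sum.inr i ∈ w ↔ i ∈ w.filterMap Sum.getRight? := by
  rw [List.mem_filterMap]
  constructor
  · intro h
    exact ⟨Sum.inr i, h, rfl⟩
  · rintro ⟨a, ha, hai⟩
    rcases a with a | j
    · exact absurd hai (by simp)
    · rw [Sum.getRight?_inr, Option.some.injEq] at hai
      rw [← hai]
      exact ha

theorem t_UNI : S_UNI.{u, v} := by
  intro k R _ _ _ _ _ n _ hcap w hw x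
  have h1 := ev_mem (k := k) (R := R) w
  have h2 : ∀ F : (Fin n → Unitization k R) → Unitization k R,
      F ∈ Submodule.span k {F : (Fin n → Unitization k R) → Unitization k R |
      ∃ w' : List (R ⊕ Fin n), w'.filterMap Sum.getRight? = w.filterMap Sum.getRight? ∧
        F = ev1 w'} →
      ∑ σ : Equiv.Perm (Fin n), (Equiv.Perm.sign σ : ℤ) •
        F ((fun i => ((x i : R) : Unitization k R)) ∘ σ) = 0 := by
    intro F hF
    refine Submodule.span_induction (p := fun F _ => ∑ σ : Equiv.Perm (Fin n),
      (Equiv.Perm.sign σ : ℤ) • F ((fun i => ((x i : R) : Unitization k R)) ∘ σ) = 0)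
      ?_ ?_ ?_ ?_ hF
    · rintro F ⟨w', hw', rfl⟩
      refine hcap w' ⟨?_, ?_⟩ x
      · rw [hw']
        exact hw.1
      · intro i
        rw [mem_iff, hw', ← mem_iff]
        exact hw.2 i
    · simp
    · intro F G _ _ hF hG
      simp only [Pi.add_apply, smul_add, Finset.sum_add_distrib]
      rw [hF, hG, add_zero]
    · intro c F _ hF
      have h3 : ∀ σ : Equiv.Perm (Fin n), (Equiv.Perm.sign σ : ℤ) •
          (c • F) ((fun i => ((x i : R) : Unitization k R)) ∘ σ) =
          c • ((Equiv.Perm.sign σ : ℤ) • F ((fun i => ((x i : R) : Unitization k R)) ∘ σ)) := by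
        intro σ
        rw [Pi.smul_apply, smul_comm]
      rw [Finset.sum_congr rfl fun σ _ => h3 σ, ← Finset.smul_sum, hF, smul_zero]
  exact h2 _ h1

end Run7.h650.LV
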